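import Pool.Agent.Lib.helper21.ABEnt

/-! The entropy of `f_{a,b}` is non-decreasing in `a` for `0 ≤ b ≤ 1/2`. -/

set_option autoImplicit false

namespace Pool.Agent.Results.MP_c34b65_an.Mono

open Pool.Agent.Lib.Helper21.ABDef Pool.Agent.Lib.Helper21.ABEnt

theorem result (a a' b : ℝ) (hb : b ≤ 1 / 2) (P : Par a b) (P' : Par a' b) (ha : a ≤ a') :
    ∃ h h' : ℝ, HasEnt a b h ∧ HasEnt a' b h' ∧ h ≤ h' := by
  obtain ⟨h, H⟩ := exists_ent a b
  obtain ⟨h', H'⟩ := exists_ent a' b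
  exact ⟨h, h', H, H', mono P P' ha (by linarith [P'.2.2.1]) le_rfl (by linarith) H H'⟩

end Pool.Agent.Results.MP_c34b65_an.Mono
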